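import Mathlib
import Pool.Agent.Q260.HQ.Defs

/-!
# MP_d17388_co, Question 1: the answer is no

The six-dimensional cube has a minimum zero forcing set (of size `32`) with propagation time `18`,
which is larger than `2 ^ (6 - 2) = 16`.
-/

open Pool.Agent.Q260.HQ

namespace Pool.Agent.Results.MP_d17388_co.CubeSix

/-- the number with binary digits `x` -/
def code (x : Fin 6 → Bool) : ℕ :=
  (x 0).toNat + 2 * (x 1).toNat + 4 * (x 2).toNat + 8 * (x 3).toNat + 16 * (x 4).toNat +
    32 * (x 5).toNat

lemma code_lt (x : Fin 6 → Bool) : code x < 64 := by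
  unfold code
  have h : ∀ b : Bool, b.toNat ≤ 1 := by decide
  have := h (x 0); have := h (x 1); have := h (x 2); have := h (x 3); have := h (x 4)
  have := h (x 5)
  omega

lemma code_flp : ∀ (x : Fin 6 → Bool) (i : Fin 6), code (flp i x) = code x ^^^ (1 <<< (i : ℕ)) := by
  decide

/-- the set of vertices described by the binary digits of `A` -/
def SS (A : ℕ) : Set (Fin 6 → Bool) := {x | A.testBit (code x) = true}

/-- test of one round -/
def okStep (A B : ℕ) : Bool := (List.range 64).all fun w =>
  B.testBit w == (A.testBit w || (List.finRange 6).any fun i =>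
    A.testBit (w ^^^ (1 <<< (i : ℕ))) && (List.finRange 6).all fun j =>
      (j == i) || A.testBit ((w ^^^ (1 <<< (i : ℕ))) ^^^ (1 <<< (j : ℕ))))

lemma mem_step (A : ℕ) (x : Fin 6 → Bool) : x ∈ step (cube 6) (SS A) ↔
    x ∈ SS A ∨ ∃ i, flp i x ∈ SS A ∧ ∀ j, j ≠ i → flp j (flp i x) ∈ SS A := by
  constructor
  · rintro (hx | ⟨hx, v, hv, hvx, huniq⟩)
    · exact Or.inl hx
    · right
      obtain ⟨i, rfl⟩ := (adj_iff v x).1 hvx
      refine ⟨i, by rw [flp_flp]; exact hv, fun j hj => ?_⟩
      rw [flp_flp]
      by_contra hn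
      exact hj (flp_inj (huniq (flp j v) ((adj_iff _ _).2 ⟨j, rfl⟩) hn))
  · rintro (hx | ⟨i, hi, h⟩)
    · exact Or.inl hx
    · by_cases hx : x ∈ SS A
      · exact Or.inl hx
      · refine Or.inr ⟨hx, flp i x, hi, (adj_iff _ _).2 ⟨i, (flp_flp i x).symm⟩, ?_⟩
        intro u hu hun
        obtain ⟨j, rfl⟩ := (adj_iff _ _).1 hu
        by_cases hj : j = i
        · rw [hj, flp_flp]
        · exact absurd (h j hj) hun

lemma step_eq {A B : ℕ} (h : okStep A B = true) : step (cube 6) (SS A) = SS B := by
  ext x
  rw [mem_step]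
  have h1 := List.all_eq_true.1 h (code x) (List.mem_range.2 (code_lt x))
  rw [beq_iff_eq] at h1
  have e1 : ∀ i, A.testBit (code x ^^^ (1 <<< (i : Fin 6).val)) = A.testBit (code (flp i x)) :=
    fun i => by rw [code_flp]
  have e2 : ∀ i j, A.testBit ((code x ^^^ (1 <<< (i : Fin 6).val)) ^^^ (1 <<< (j : Fin 6).val)) =
      A.testBit (code (flp j (flp i x))) := fun i j => by rw [code_flp, code_flp]
  simp only [e1, e2] at h1
  change _ ↔ B.testBit (code x) = true
  rw [h1]
  simp only [SS, Set.mem_ofPred_eq, Bool.or_eq_true, List.any_eq_true, List.mem_finRange, true_and,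
    Bool.and_eq_true, List.all_eq_true, beq_iff_eq, forall_const]
  constructor
  · rintro (h2 | ⟨i, h2, h3⟩)
    · exact Or.inl h2
    · refine Or.inr ⟨i, h2, fun j => ?_⟩
      by_cases hj : j = i
      · exact Or.inl hj
      · exact Or.inr (h3 j hj)
  · rintro (h2 | ⟨i, h2, h3⟩)
    · exact Or.inl h2
    · exact Or.inr ⟨i, h2, fun j hj => (h3 j).resolve_left hj⟩

/-- the sets `S^{(0)}, …, S^{(18)}` -/
def masks : List ℕ := [14735830723960194136, 14738082523773879384, 14882197711849735256, 14882197711849735768,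
    14882197720439670360, 14882197737619539544, 14882268106363717208, 14900282504873199192,
    14909289704127940184, 14909289704127940216, 14909289704128988792, 14913793304830101112,
    16067840709343790712, 16068685134273926776, 18374528143487653499, 18446585741820548731,
    18446603334073702015, 18446744073709541375, 18446744073709551615]

lemma all_ok : ∀ t : Fin 18, okStep (masks.getD t 0) (masks.getD (t + 1) 0) = true := by decide

lemma after_eq (t : ℕ) (ht : t ≤ 18) : after (cube 6) (SS (masks.getD 0 0)) t =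
    SS (masks.getD t 0) := by
  induction t with
  | zero => rfl
  | succ t ih =>
    have h1 := all_ok ⟨t, ht⟩
    change step (cube 6) (after (cube 6) (SS (masks.getD 0 0)) t) = _
    rw [ih (by omega)]
    exact step_eq h1

/-- the minimum zero forcing set -/
def S0 : Set (Fin 6 → Bool) := SS (masks.getD 0 0)

lemma full : SS (masks.getD 18 0) = Set.univ := by
  have h : ∀ x : Fin 6 → Bool, (masks.getD 18 0).testBit (code x) = true := by decide
  ext x
  exact iff_of_true (h x) trivial

lemma not_full : ∀ t : Fin 18, ∃ x : Fin 6 → Bool, (masks.getD t 0).testBit (code x) = false := by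
  decide

lemma ncard_S0 : S0.ncard = 32 := by
  have h1 : S0 = ((Finset.univ.filter fun x : Fin 6 → Bool =>
      (masks.getD 0 0).testBit (code x) = true : Finset _) : Set _) := by
    ext x
    simp [S0, SS]
  rw [h1, Set.ncard_coe_finset]
  decide

lemma isMin : IsMin (cube 6) S0 := by
  refine ⟨⟨18, ?_⟩, fun T hT => ?_⟩
  · unfold S0
    rw [after_eq 18 le_rfl, full]
  · have := lower (d := 6) (by decide) T hT
    rw [ncard_S0]
    omega

lemma pt_eq : pt (cube 6) S0 = 18 := by
  unfold pt
  apply le_antisymm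
  · apply Nat.sInf_le
    change after (cube 6) S0 18 = Set.univ
    unfold S0
    rw [after_eq 18 le_rfl, full]
  · apply le_csInf
    · exact isMin.1
    · intro t ht
      by_contra hlt
      push Not at hlt
      obtain ⟨x, hx⟩ := not_full ⟨t, hlt⟩
      have h1 : after (cube 6) S0 t = Set.univ := ht
      unfold S0 at h1
      rw [after_eq t hlt.le] at h1
      have h2 : x ∈ SS (masks.getD t 0) := by rw [h1]; trivial
      have h3 : (masks.getD t 0).testBit (code x) = true := h2
      have h4 : (masks.getD t 0).testBit (code x) = false := hx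
      rw [h3] at h4
      exact absurd h4 (by decide)

/-- `Q_d` has the conjectured propagation times. -/
def Claim (d : ℕ) : Prop :=
  ptMin (cube d) = 1 ∧ ptMax (cube d) = 2 ^ (d - 2) ∧
    ∀ k, ptMin (cube d) ≤ k → k ≤ ptMax (cube d) → ∃ S, IsMin (cube d) S ∧ pt (cube d) S = k

/-- **Theorem.** The cube `Q_6` has a minimum zero forcing set with propagation time `18`; so
`PT(Q_6) ≥ 18 > 2 ^ (6 - 2)`, and the claim fails for `d = 6`. -/
theorem result : (∃ S, IsMin (cube 6) S ∧ pt (cube 6) S = 18) ∧ 18 ≤ ptMax (cube 6) ∧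
    ¬ ∀ d, 2 ≤ d → Claim d := by
  have hbdd : BddAbove (times (cube 6)) := by
    apply Set.Finite.bddAbove
    have : times (cube 6) = (fun S => pt (cube 6) S) '' {S | IsMin (cube 6) S} := by
      ext k
      constructor
      · rintro ⟨S, h1, h2⟩
        exact ⟨S, h1, h2⟩
      · rintro ⟨S, h1, h2⟩
        exact ⟨S, h1, h2⟩
    rw [this]
    exact (Set.toFinite _).image _
  have hle : 18 ≤ ptMax (cube 6) := le_csSup hbdd ⟨S0, isMin, pt_eq⟩
  refine ⟨⟨S0, isMin, pt_eq⟩, hle, fun h => ?_⟩
  have := (h 6 (by norm_num)).2.1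
  rw [this] at hle
  norm_num at hle

end Pool.Agent.Results.MP_d17388_co.CubeSix
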